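import Pool.Agent.H51.MFL.S

/-!
# Board mfl: PWL, the `p`-th power of a linear relation with coefficients on the left
-/

set_option autoImplicit false

open Module MvPolynomial

namespace Pool.MFL

theorem t_pwl : PWLStmt := by
  intro S U ι _ _ _ p _ _ _ e t ht q c ψ₀ ψ hq h
  classical
  have hcomm : ∀ x ∈ Set.range t, ∀ y ∈ Set.range t, x * y = y * x := by
    rintro _ ⟨a, rfl⟩ _ ⟨b, rfl⟩
    exact ht a b
  let _ : CommRing (Subring.closure (Set.range t)) := Subring.closureCommRingOfComm hcomm
  obtain ⟨τ, hτ⟩ : ∃ τ : ι → Subring.closure (Set.range t), ∀ a, (τ a : U) = t a :=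
    ⟨fun a => ⟨t a, Subring.subset_closure ⟨a, rfl⟩⟩, fun a => rfl⟩
  obtain ⟨T, hT⟩ : ∃ T : (ι →₀ ℕ) → U, T = fun B => ((∏ a, τ a ^ B a :
    Subring.closure (Set.range t)) : U) := ⟨_, rfl⟩
  have T0 : T 0 = 1 := by
    rw [hT]
    simp
  have Ts : ∀ a n, T (Finsupp.single a n) = t a ^ n := by
    intro a n
    rw [hT]
    simp only
    rw [Finset.prod_eq_single a (fun b _ hb => by
      rw [Finsupp.single_eq_of_ne (by simpa using hb), pow_zero])
      (fun h => absurd (Finset.mem_univ a) h), Finsupp.single_eq_same, Subring.coe_pow, hτ]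
  have Ta : ∀ a B, T (Finsupp.single a 1 + B) = t a * T B := by
    intro a B
    have e1 : (∏ b, τ b ^ ((Finsupp.single a 1 + B : ι →₀ ℕ) b)) = τ a * ∏ b, τ b ^ B b := by
      simp only [Finsupp.add_apply, pow_add, Finset.prod_mul_distrib]
      congr 1
      rw [Finset.prod_eq_single a (fun b _ hb => by
        rw [Finsupp.single_eq_of_ne (by simpa using hb), pow_zero])
        (fun h => absurd (Finset.mem_univ a) h), Finsupp.single_eq_same, pow_one]
    rw [hT]
    simp only
    rw [e1, Subring.coe_mul, hτ]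
  have Tq : ∀ B, T B * q = q * T B := by
    intro B
    have key : ∀ x ∈ Subring.closure (Set.range t), x * q = q * x := by
      intro x hx
      refine Subring.closure_induction (p := fun x _ => x * q = q * x) ?_ ?_ ?_ ?_ ?_ ?_ hx
      · rintro _ ⟨a, rfl⟩
        exact (hq a).symm
      · simp
      · simp
      · intro x y _ _ h1 h2
        rw [add_mul, mul_add, h1, h2]
      · intro x _ h1
        rw [neg_mul, mul_neg, h1]
      · intro x y _ _ h1 h2
        rw [mul_assoc, h2, ← mul_assoc, h1, mul_assoc]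
    rw [hT]
    exact key _ (Subtype.property _)
  obtain ⟨L, hL⟩ : ∃ L : MvPolynomial ι S →+ U, ∀ B s, L (monomial B s) = e s * T B := by
    refine ⟨AddMonoidAlgebra.liftNC (e : S →+ U) (fun B : Multiplicative (ι →₀ ℕ) =>
      T (Multiplicative.toAdd B)), fun B s => ?_⟩
    exact AddMonoidAlgebra.liftNC_single _ _ _ _
  obtain ⟨lin, hlin⟩ : ∃ lin : MvPolynomial ι S, lin = ∑ a, C (ψ a) * X a + C ψ₀ := ⟨_, rfl⟩
  have step : ∀ w, e c * L w * q = L (lin * w) := by
    intro w
    induction w using MvPolynomial.induction_on' with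
    | monomial B s =>
      have e1 : lin * monomial B s = ∑ a, monomial (Finsupp.single a 1 + B) (ψ a * s) +
          monomial B (ψ₀ * s) := by
        rw [hlin, add_mul, Finset.sum_mul]
        congr 1
        · refine Finset.sum_congr rfl fun a _ => ?_
          rw [X, C_mul_monomial, mul_one, monomial_mul]
        · rw [C_mul_monomial]
      rw [e1, map_add, map_sum, hL, hL]
      simp only [hL, Ta]
      have e2 : e c * (e s * T B) * q = e s * (e c * q) * T B := by
        rw [mul_assoc (e c), mul_assoc (e s), Tq, ← mul_assoc (e s), ← mul_assoc (e c),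
          ← mul_assoc (e c), ← mul_assoc (e s) (e c), ← map_mul, ← map_mul, mul_comm c s]
      rw [e2, h, mul_add, add_mul, Finset.mul_sum, Finset.sum_mul]
      congr 1
      · refine Finset.sum_congr rfl fun a _ => ?_
        rw [map_mul, ← map_mul e, mul_comm (ψ a) s, map_mul, mul_assoc, mul_assoc, mul_assoc]
      · rw [← map_mul, mul_comm s ψ₀]
    | add w₁ w₂ h1 h2 =>
      rw [map_add, mul_add, add_mul, h1, h2, mul_add, map_add]
  have key : ∀ n : ℕ, e c ^ n * q ^ n = L (lin ^ n) := by
    intro n
    induction n with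
    | zero =>
      have e1 : (1 : MvPolynomial ι S) = monomial 0 1 := rfl
      rw [pow_zero, pow_zero, pow_zero, e1, hL, map_one, T0]
    | succ n ih =>
      rw [pow_succ' lin n, ← step, ← ih, pow_succ' (e c), pow_succ q]
      simp only [mul_assoc]
  rw [key p, hlin, add_pow_char, sum_pow_char, map_add, map_sum]
  congr 1
  · refine Finset.sum_congr rfl fun a _ => ?_
    have e1 : (C (ψ a) * X a : MvPolynomial ι S) ^ p = monomial (Finsupp.single a p) (ψ a ^ p) := by
      rw [mul_pow, ← C_pow, X_pow_eq_monomial, C_mul_monomial, mul_one]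
    rw [e1, hL, Ts, map_pow]
  · have e1 : (C ψ₀ : MvPolynomial ι S) ^ p = monomial 0 (ψ₀ ^ p) := by
      rw [← C_pow]
      rfl
    rw [e1, hL, T0, mul_one, map_pow]

end Pool.MFL
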